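import Pool.Agent.K3h75.ND.StmG

/-!
# Project ND (helper75, MP_6a3dac_ag), brick G0: from `GoodVec` to prime ideals (helper49)
-/

set_option autoImplicit false

namespace Pool.Agent.K3h49.ND

open MvPolynomial Pool.Agent.TH214.RM NumberField Pool.Agent.K3h75.ND

theorem map_form {N d : ℕ} {R S : Type} [CommRing R] [CommRing S] (φ : R →+* S)
    (a : Mon N d → ℤ) : map φ (form fun m => ((a m : ℤ) : R)) = form fun m => ((a m : ℤ) : S) := by
  unfold form
  rw [map_sum]
  refine Finset.sum_congr rfl fun m _ => ?_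
  rw [map_monomial, map_intCast]

theorem form_hom {N d : ℕ} {R : Type} [CommRing R] (a : Mon N d → R) :
    (form a).IsHomogeneous d := by
  unfold form
  exact IsHomogeneous.sum _ _ _ fun m _ => isHomogeneous_monomial _ m.2

/-- evaluation at the classes of the variables -/
theorem eval_class {σ R k : Type} [CommRing R] [CommRing k] (ψ : MvPolynomial σ R →+* k)
    (P : MvPolynomial σ R) : eval (fun i => ψ (X i)) (map (ψ.comp C) P) = ψ P := by
  rw [eval_map]
  induction P using MvPolynomial.induction_on with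
  | C a => simp
  | add p q hp hq => rw [eval₂_add, hp, hq, map_add]
  | mul_X p i hp => rw [eval₂_mul, hp, eval₂_X, map_mul]

/-- evaluation of the dehomogenisation at the classes of the variables -/
theorem eval_deh {ι R k : Type} [CommRing R] [CommRing k] [DecidableEq ι] (s : ι)
    (ψ : MvPolynomial {j : ι // j ≠ s} R →+* k) (P : MvPolynomial ι R) :
    eval (fun i => ψ (deh s (X i : MvPolynomial ι R))) (map (ψ.comp C) P) = ψ (deh s P) := by
  rw [eval_map]
  induction P using MvPolynomial.induction_on with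
  | C a => simp [deh]
  | add p q hp hq =>
    rw [eval₂_add, hp, hq]
    simp only [deh, map_add]
  | mul_X p i hp =>
    rw [eval₂_mul, hp, eval₂_X]
    simp only [deh, map_mul]

theorem deh_X_self {ι R : Type} [CommRing R] [DecidableEq ι] (s : ι) :
    deh s (X s : MvPolynomial ι R) = 1 := by
  unfold deh
  rw [aeval_X]
  simp [Pool.Agent.H918R2.Quad.tau]

theorem euler_zero {N d : ℕ} {k : Type} [Field k] (G : MvPolynomial (Fin N) k)
    (hG : G.IsHomogeneous d) (s : Fin N) (x : Fin N → k) (hs : x s = 1) (h0 : eval x G = 0)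
    (h : ∀ i, i ≠ s → eval x (pderiv i G) = 0) (i : Fin N) : eval x (pderiv i G) = 0 := by
  by_cases hi : i = s
  · subst hi
    have h2 := congrArg (eval x) hG.sum_X_mul_pderiv
    rw [map_sum, map_nsmul, h0, smul_zero, Finset.sum_eq_single i] at h2
    · rwa [map_mul, eval_X, hs, one_mul] at h2
    · intro j _ hj
      rw [map_mul, h j hj, mul_zero]
    · intro h
      exact absurd (Finset.mem_univ i) h
  · exact h i hi

theorem smooth {n d : ℕ} {a : Mon (n + 1 + 1) d → ℤ} (ha : GoodVec a) (K : Type) [Field K]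
    [NumberField K] :
    Smooth (map (algebraMap (𝓞 K) K) (form fun m => ((a m : ℤ) : 𝓞 K))) := by
  intro i
  rw [map_form, Ideal.radical_eq_sInf, Submodule.mem_sInf]
  rintro P ⟨hP, hPr⟩
  by_contra hi
  have := hPr
  let B := MvPolynomial (Fin (n + 1 + 1)) K ⧸ P
  let k := FractionRing B
  let ψ : MvPolynomial (Fin (n + 1 + 1)) K →+* k := (algebraMap B k).comp (Ideal.Quotient.mk P)
  have hψ : ∀ Q, ψ Q = 0 → Q ∈ P := by
    intro Q hQ
    have h1 : algebraMap B k (Ideal.Quotient.mk P Q) = 0 := hQ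
    rw [map_eq_zero_iff _ (IsFractionRing.injective B k)] at h1
    exact Ideal.Quotient.eq_zero_iff_mem.1 h1
  have hψ' : ∀ Q ∈ P, ψ Q = 0 := by
    intro Q hQ
    change algebraMap B k (Ideal.Quotient.mk P Q) = 0
    rw [Ideal.Quotient.eq_zero_iff_mem.2 hQ, map_zero]
  have : CharZero k := charZero_of_injective_ringHom (ψ.comp C).injective
  have hx := ha.1 k (fun i => ψ (X i)) (fun j => by
    have h1 : form (fun m => ((a m : ℤ) : k)) =
        map (ψ.comp C) (form fun m => ((a m : ℤ) : K)) := (map_form _ a).symm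
    rw [h1, pderiv_map, eval_class]
    exact hψ' _ (hP (Ideal.subset_span ⟨j, rfl⟩)))
  exact hi (hψ _ (congrFun hx i))

theorem nodal {n d : ℕ} {a : Mon (n + 1 + 1) d → ℤ} (ha : GoodVec a) (K : Type) [Field K]
    [NumberField K] (𝔭 : Ideal (𝓞 K)) (h𝔭 : 𝔭.IsPrime) (h0 : 𝔭 ≠ ⊥) :
    Nod 𝔭 (form fun m => ((a m : ℤ) : 𝓞 K)) := by
  intro s Q hQ hC hdeh
  by_contra hcon
  rw [not_or, not_exists, not_not] at hcon
  obtain ⟨hder, hdt⟩ := hcon
  have hder' : ∀ j, pderiv j (deh s (form fun m => ((a m : ℤ) : 𝓞 K))) ∈ Q := by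
    intro j
    by_contra h
    exact hder j h
  have := hQ
  let B := MvPolynomial {j : Fin (n + 1 + 1) // j ≠ s} (𝓞 K) ⧸ Q
  let k := FractionRing B
  let ψ : MvPolynomial {j : Fin (n + 1 + 1) // j ≠ s} (𝓞 K) →+* k :=
    (algebraMap B k).comp (Ideal.Quotient.mk Q)
  have hψ' : ∀ P ∈ Q, ψ P = 0 := by
    intro P hP
    change algebraMap B k (Ideal.Quotient.mk Q P) = 0
    rw [Ideal.Quotient.eq_zero_iff_mem.2 hP, map_zero]
  -- the characteristic of `k`
  obtain ⟨p, hp⟩ := CharP.exists k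
  have hpp : p.Prime := by
    rcases CharP.char_is_prime_or_zero k p with h | h
    · exact h
    · subst h
      have : CharZero k := CharP.charP_to_charZero k
      exfalso
      have h1 : ((Ideal.absNorm 𝔭 : ℕ) : 𝓞 K) ∈ 𝔭 := Ideal.absNorm_mem 𝔭
      have h2 : Ideal.absNorm 𝔭 ≠ 0 := by
        rw [Ne, Ideal.absNorm_eq_zero_iff]
        exact h0
      have h3 : ψ (C ((Ideal.absNorm 𝔭 : ℕ) : 𝓞 K)) = 0 := hψ' _ ((hC _).2 h1)
      rw [map_natCast C, map_natCast] at h3
      exact h2 (Nat.cast_eq_zero.1 h3)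
  have hform : form (fun m => ((a m : ℤ) : k)) =
      map (ψ.comp C) (form fun m => ((a m : ℤ) : 𝓞 K)) := (map_form _ a).symm
  let x : Fin (n + 1 + 1) → k := fun i => ψ (deh s (X i : MvPolynomial (Fin (n + 1 + 1)) (𝓞 K)))
  have hxs : x s = 1 := by
    change ψ (deh s (X s)) = 1
    rw [deh_X_self, map_one]
  have hF : eval x (form fun m => ((a m : ℤ) : k)) = 0 := by
    rw [hform, eval_deh]
    exact hψ' _ hdeh
  have hne : ∀ i, i ≠ s → eval x (pderiv i (form fun m => ((a m : ℤ) : k))) = 0 := by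
    intro i hi
    rw [hform, pderiv_map, eval_deh]
    have h1 := pderiv_deh s ⟨i, hi⟩ (form fun m => ((a m : ℤ) : 𝓞 K))
    rw [← h1]
    exact hψ' _ (hder' ⟨i, hi⟩)
  have hall : ∀ i, eval x (pderiv i (form fun m => ((a m : ℤ) : k))) = 0 :=
    euler_zero _ (form_hom _) s x hxs hF hne
  refine ha.2 p hpp k x s hxs hF hall ?_
  have h1 : ψ (hess (deh s (form fun m => ((a m : ℤ) : 𝓞 K)))).det = 0 := hψ' _ hdt
  rw [RingHom.map_det] at h1
  unfold hdet
  rw [← h1]
  congr 1
  ext i j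
  simp only [Matrix.of_apply, RingHom.mapMatrix_apply, Matrix.map_apply, hess]
  rw [pderiv_deh s j, pderiv_deh s i, ← eval_deh s ψ, hform, pderiv_map, pderiv_map]

/-- **Brick G0.** -/
theorem t_G0 : S_G0 := fun _ _ _ ha K _ _ =>
  ⟨smooth ha K, fun 𝔭 h𝔭 h0 => nodal ha K 𝔭 h𝔭 h0⟩

end Pool.Agent.K3h49.ND
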